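import Pool.Agent.V5helper56.DU.Stm

set_option autoImplicit false

open NumberField Module

open Pool.Agent.V5helper56.DU

namespace Pool.Agent.V5helper17.DU

/-- units of the ring of integers are `p`-units -/
noncomputable def unitHom (p : ℕ) (F : Type) [Field F] [NumberField F] : (𝓞 F)ˣ →* PU p F :=
  (Units.map (algebraMap (𝓞 F) F : 𝓞 F →* F)).codRestrict (PU p F) (fun w => by
    refine ⟨0, ?_, ?_⟩
    · rw [pow_zero, one_mul]
      exact RingOfIntegers.isIntegral_coe (w : 𝓞 F)
    · rw [pow_zero, one_mul, ← map_inv]
      exact RingOfIntegers.isIntegral_coe ((w⁻¹ : (𝓞 F)ˣ) : 𝓞 F))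

theorem unitHom_coe (p : ℕ) (F : Type) [Field F] [NumberField F] (w : (𝓞 F)ˣ) :
    (((unitHom p F w : PU p F) : Fˣ) : F) = ((w : 𝓞 F) : F) := rfl

theorem t_FIN (hVAL : S_VAL) : S_FIN := by
  intro p hp F _ _
  obtain ⟨hfin, v, h, hh, hker, hbas⟩ := hVAL p hp F
  haveI := Fintype.ofFinite (Above p F)
  classical
  let φ0 : Additive (PU p F) →+ (Above p F → ℤ) :=
    { toFun := fun a P => Multiplicative.toAdd (v a.toMul P)
      map_zero' := by
        funext P
        show Multiplicative.toAdd (v 1 P) = 0
        rw [map_one]; rfl
      map_add' := fun a b => by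
        funext P
        show Multiplicative.toAdd (v (a.toMul * b.toMul) P) = _
        rw [map_mul]; rfl }
  let φ : Additive (PU p F) →ₗ[ℤ] (Above p F → ℤ) := φ0.toIntLinearMap
  have hφ : ∀ (u : PU p F) (P : Above p F), φ (Additive.ofMul u) P = Multiplicative.toAdd (v u P) :=
    fun _ _ => rfl
  let g : Additive (𝓞 F)ˣ →ₗ[ℤ] Additive (PU p F) := (unitHom p F).toAdditive.toIntLinearMap
  have hg : ∀ w : (𝓞 F)ˣ, g (Additive.ofMul w) = Additive.ofMul (unitHom p F w) := fun _ => rfl
  have hginj : Function.Injective g := by
    intro a b hab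
    have h1 : unitHom p F a.toMul = unitHom p F b.toMul := Additive.ofMul.injective hab
    have h2 : ((a.toMul : 𝓞 F) : F) = ((b.toMul : 𝓞 F) : F) := by
      rw [← unitHom_coe p, ← unitHom_coe p, h1]
    apply Additive.toMul.injective
    apply Units.ext
    exact RingOfIntegers.coe_injective h2
  have hrange : LinearMap.range g = LinearMap.ker φ := by
    ext a
    rw [LinearMap.mem_range, LinearMap.mem_ker]
    have hk := hker a.toMul
    have hk2 : φ a = 0 ↔ v a.toMul = 1 := by
      constructor
      · intro h1
        funext P
        have := congrFun h1 P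
        exact Multiplicative.toAdd.injective this
      · intro h1
        funext P
        show Multiplicative.toAdd (v a.toMul P) = 0
        rw [h1]; rfl
    rw [hk2, hk]
    constructor
    · rintro ⟨w, rfl⟩
      exact ⟨w.toMul, rfl⟩
    · rintro ⟨w, hw⟩
      refine ⟨Additive.ofMul w, ?_⟩
      apply Additive.toMul.injective
      apply Subtype.ext
      apply Units.ext
      exact hw.symm
  haveI : Module.Finite ℤ (LinearMap.ker φ) := by
    rw [← hrange]; exact Module.Finite.range g
  haveI : Module.Finite ℤ (Additive (PU p F) ⧸ LinearMap.ker φ) :=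
    Module.Finite.equiv φ.quotKerEquivRange.symm
  haveI hfinA : Module.Finite ℤ (Additive (PU p F)) := Module.Finite.of_submodule_quotient (LinearMap.ker φ)
  refine ⟨hfinA, ?_⟩
  have h1 := Submodule.finrank_quotient_add_finrank (LinearMap.ker φ)
  have h2 : finrank ℤ (LinearMap.ker φ) + 1 = Fintype.card (InfinitePlace F) := by
    rw [← hrange, LinearMap.finrank_range_of_inj hginj]
    exact Pool.Agent.V5helper56.LI.rank_units F
  have h3 : finrank ℤ (Additive (PU p F) ⧸ LinearMap.ker φ) = Nat.card (Above p F) := by
    rw [φ.quotKerEquivRange.finrank_eq, Nat.card_eq_fintype_card]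
    apply le_antisymm
    · have := Submodule.finrank_le (LinearMap.range φ)
      rwa [Module.finrank_fintype_fun_eq_card] at this
    · choose u hu hu' using hbas
      have hli : LinearIndependent ℤ (fun P : Above p F =>
          (⟨φ (Additive.ofMul (u P)), LinearMap.mem_range_self _ _⟩ : LinearMap.range φ)) := by
        apply LinearIndependent.of_comp (LinearMap.range φ).subtype
        rw [Fintype.linearIndependent_iff]
        intro c hc P
        have h4 := congrFun hc P
        rw [Finset.sum_apply, Finset.sum_eq_single P] at h4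
        · have h5 : c P * (h : ℤ) = 0 := by
            have h6 : φ (Additive.ofMul (u P)) P = (h : ℤ) := by rw [hφ, hu]; rfl
            have h7 : (c P • (φ (Additive.ofMul (u P)))) P = 0 := h4
            rw [Pi.smul_apply, h6, smul_eq_mul] at h7
            exact h7
          rcases mul_eq_zero.mp h5 with h6 | h6
          · exact h6
          · exfalso; have : h = 0 := by exact_mod_cast h6
            omega
        · intro Q _ hQ
          have h6 : φ (Additive.ofMul (u Q)) P = 0 := by
            rw [hφ, hu' Q P (Ne.symm hQ)]; rfl
          show (c Q • (φ (Additive.ofMul (u Q)))) P = 0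
          rw [Pi.smul_apply, h6, smul_zero]
        · intro h6; exact absurd (Finset.mem_univ P) h6
      exact hli.fintype_card_le_finrank
  omega

end Pool.Agent.V5helper17.DU
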